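import Mathlib
import Pool.Agent.N266.TI.Stm

/-! Project TI, leaf AMi (helper622): consequences for almost minimizers from the first variation and
the mollification. -/

set_option autoImplicit false

namespace Pool.Agent.N622.TI

open MeasureTheory Metric Set Pool.Agent.N266.TI
open scoped ENNReal Pointwise ContDiff Convolution

variable {n : ℕ}

theorem norm_gr_sq (f : E n → ℝ) (x : E n) :
    ‖gr f x‖ ^ 2 = ∑ i, fderiv ℝ f x (e i) * fderiv ℝ f x (e i) := by
  rw [gr, EuclideanSpace.norm_sq_eq]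
  refine Finset.sum_congr rfl fun i _ => ?_
  rw [Real.norm_eq_abs, sq_abs, sq]

theorem bil_self (f : E n → ℝ) : bil f f = En f := by
  unfold bil En
  congr 1
  funext x
  rw [norm_gr_sq]

theorem En_nonneg (f : E n → ℝ) : 0 ≤ En f := integral_nonneg fun _ => sq_nonneg _

theorem integ (φ ζ : E n → ℝ) (h1 : ContDiff ℝ 1 φ) (h2 : ContDiff ℝ 1 ζ)
    (hc : HasCompactSupport ζ) :
    Integrable (fun x => ∑ i, fderiv ℝ φ x (e i) * fderiv ℝ ζ x (e i)) := by
  refine integrable_finset_sum _ fun i _ => ?_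
  refine Continuous.integrable_of_hasCompactSupport ?_ ?_
  · exact ((h1.continuous_fderiv one_ne_zero).clm_apply continuous_const).mul
      ((h2.continuous_fderiv one_ne_zero).clm_apply continuous_const)
  · exact (hc.fderiv_apply ℝ (e i)).mul_left

theorem bil_sub (ψ a b : E n → ℝ) (hψ : ContDiff ℝ 1 ψ) (ha : ContDiff ℝ 1 a)
    (hb : ContDiff ℝ 1 b) (hac : HasCompactSupport a) (hbc : HasCompactSupport b) :
    bil ψ (fun y => a y - b y) = bil ψ a - bil ψ b := by
  unfold bil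
  rw [← integral_sub (integ ψ a hψ ha hac) (integ ψ b hψ hb hbc)]
  congr 1
  funext x
  rw [← Finset.sum_sub_distrib]
  refine Finset.sum_congr rfl fun i _ => ?_
  rw [fderiv_fun_sub (ha.differentiable one_ne_zero x) (hb.differentiable one_ne_zero x),
    ContinuousLinearMap.sub_apply, mul_sub]

theorem bil_neg (ψ a : E n → ℝ) : bil ψ (fun y => - a y) = - bil ψ a := by
  unfold bil
  rw [← integral_neg]
  congr 1
  funext x
  rw [← Finset.sum_neg_distrib]
  refine Finset.sum_congr rfl fun i _ => ?_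
  rw [fderiv_fun_neg, ContinuousLinearMap.neg_apply, mul_neg]

theorem En_neg (a : E n → ℝ) : En (fun y => - a y) = En a := by
  rw [← bil_self, ← bil_self]
  unfold bil
  congr 1
  funext x
  refine Finset.sum_congr rfl fun i _ => ?_
  rw [fderiv_fun_neg, ContinuousLinearMap.neg_apply, neg_mul_neg]

theorem En_sub_le (a b : E n → ℝ) (ha : ContDiff ℝ 1 a)
    (hb : ContDiff ℝ 1 b) (hac : HasCompactSupport a) (hbc : HasCompactSupport b) :
    En (fun y => a y - b y) ≤ 2 * En a + 2 * En b := by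
  rw [← bil_self, ← bil_self, ← bil_self]
  unfold bil
  have h1 := integ a a ha ha hac
  have h2 := integ b b hb hb hbc
  rw [← integral_const_mul, ← integral_const_mul,
    ← integral_add (h1.const_mul 2) (h2.const_mul 2)]
  refine integral_mono (integ _ _ (ha.sub hb) (ha.sub hb) (hac.sub hbc))
    ((h1.const_mul 2).add (h2.const_mul 2)) fun x => ?_
  show ∑ i, _ ≤ 2 * ∑ i, _ + 2 * ∑ i, _
  rw [Finset.mul_sum, Finset.mul_sum, ← Finset.sum_add_distrib]
  refine Finset.sum_le_sum fun i _ => ?_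
  rw [fderiv_fun_sub (ha.differentiable one_ne_zero x) (hb.differentiable one_ne_zero x),
    ContinuousLinearMap.sub_apply]
  nlinarith [sq_nonneg (fderiv ℝ a x (e i) + fderiv ℝ b x (e i))]

theorem fd_refl (g : E n → ℝ) (hg : ContDiff ℝ 1 g) (x y v : E n) :
    fderiv ℝ (fun y => g (x - y)) y v = - fderiv ℝ g (x - y) v := by
  have h1 : HasFDerivAt (fun y : E n => x - y) (-(ContinuousLinearMap.id ℝ (E n))) y :=
    (hasFDerivAt_id y).const_sub x
  have h2 := (hg.differentiable one_ne_zero (x - y)).hasFDerivAt.comp y h1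
  have h3 : fderiv ℝ (fun y => g (x - y)) y = (fderiv ℝ g (x - y)).comp
    (-(ContinuousLinearMap.id ℝ (E n))) := h2.fderiv
  rw [h3]
  simp

theorem En_refl (g : E n → ℝ) (hg : ContDiff ℝ 1 g) (x : E n) :
    En (fun y => g (x - y)) = En g := by
  rw [← bil_self, ← bil_self]
  unfold bil
  rw [← integral_sub_left_eq_self (fun z => ∑ i, fderiv ℝ g z (e i) * fderiv ℝ g z (e i))
    volume x]
  congr 1
  funext y
  refine Finset.sum_congr rfl fun i _ => ?_
  rw [fd_refl g hg, neg_mul_neg]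

theorem refl_contDiff (g : E n → ℝ) (hg : ContDiff ℝ 1 g) (x : E n) :
    ContDiff ℝ 1 (fun y => g (x - y)) := hg.comp (contDiff_const.sub contDiff_id)

theorem refl_supp (g : E n → ℝ) (hg : HasCompactSupport g) (x : E n) :
    HasCompactSupport (fun y => g (x - y)) :=
  hg.comp_homeomorph (Homeomorph.subLeft x)

/-- one sided estimate -/
theorem one_sided (hV : VAR) (K : Set (E n)) (ψ g : E n → ℝ) (κ : ℝ) (x : E n) (hκ : 0 < κ)
    (hψ : AdmF K ψ) (hE : En ψ ≤ cap K + κ ^ 2) (hg : ContDiff ℝ 1 g) (hgc : HasCompactSupport g)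
    (h0 : ∀ y ∈ K, 0 ≤ g (x - y)) :
    -(κ * (1 + En g) / 2) ≤ bil ψ (fun y => g (x - y)) := by
  have h1 := hV n K ψ (fun y => g (x - y)) κ hκ hψ hE (refl_contDiff g hg x)
    (refl_supp g hgc x) (fun y hy => by
      have h2 := hψ.2.2 y hy
      have h3 := mul_nonneg hκ.le (h0 y hy)
      linarith)
  rw [En_refl g hg] at h1
  exact h1

/-- two sided estimate -/
theorem two_sided (hV : VAR) (K : Set (E n)) (ψ g : E n → ℝ) (κ : ℝ) (x : E n) (hκ : 0 < κ)
    (hψ : AdmF K ψ) (hE : En ψ ≤ cap K + κ ^ 2) (hg : ContDiff ℝ 1 g) (hgc : HasCompactSupport g)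
    (h0 : ∀ y ∈ K, g (x - y) = 0) :
    |bil ψ (fun y => g (x - y))| ≤ κ * (1 + En g) / 2 := by
  have h1 := one_sided hV K ψ g κ x hκ hψ hE hg hgc (fun y hy => (h0 y hy).ge)
  have h2 := one_sided hV K ψ (fun z => - g z) κ x hκ hψ hE hg.neg hgc.neg (fun y hy => by
    show 0 ≤ - g (x - y)
    rw [h0 y hy, neg_zero])
  rw [En_neg] at h2
  have h3 : bil ψ (fun y => - g (x - y)) = - bil ψ (fun y => g (x - y)) :=
    bil_neg ψ (fun y => g (x - y))
  have h2' : -(κ * (1 + En g) / 2) ≤ - bil ψ (fun y => g (x - y)) := by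
    rw [← h3]
    exact h2
  rw [abs_le]
  constructor
  · exact h1
  · linarith

theorem int_refl (ρ : E n → ℝ) (x : E n) (h : ∫ x, ρ x = 1) : ∫ y, ρ (x - y) = 1 := by
  rw [integral_sub_left_eq_self ρ volume x, h]

theorem aux (κ M a : ℝ) (hκ : 0 < κ) (hM : 0 < M) (h : a ≤ M) : κ * a / 2 ≤ M * κ := by
  nlinarith [mul_le_mul_of_nonneg_left h hκ.le, mul_pos hκ hM]

theorem t : AMi := by
  intro hV hC n K ε χ hK hKne hε hε1 hχ hχc hχ1
  obtain ⟨ρ, hρ, hρc, hρ0, hρs, hρi, hconv⟩ := hC n ε hε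
  have hρ1 : ContDiff ℝ 1 ρ := by exact_mod_cast contDiff_infty.1 hρ 1
  -- the derivatives of the kernel
  obtain ⟨G, hG⟩ : ∃ G : Fin n → E n → ℝ, G = fun i z => fderiv ℝ ρ z (e i) := ⟨_, rfl⟩
  have hG1 : ∀ i, ContDiff ℝ 1 (G i) := by
    intro i
    rw [hG]
    have h1 : ContDiff ℝ 1 (fderiv ℝ ρ) :=
      ContDiff.fderiv_right (contDiff_infty.1 hρ 2) (by norm_num)
    exact h1.clm_apply contDiff_const
  have hGc : ∀ i, HasCompactSupport (G i) := by
    intro i
    rw [hG]
    exact hρc.fderiv_apply ℝ (e i)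
  -- the mollified test function
  obtain ⟨X, hX⟩ : ∃ X : E n → ℝ, X = fun y => ∫ x, χ x * ρ (x - y) := ⟨_, rfl⟩
  have hXconv : X = χ ⋆[ContinuousLinearMap.mul ℝ ℝ, volume] (fun z => ρ (-z)) := by
    rw [hX]
    funext y
    rw [convolution_def]
    congr 1
    funext t
    rw [ContinuousLinearMap.mul_apply', neg_sub]
  have hρn : ContDiff ℝ 1 (fun z => ρ (-z)) := hρ1.comp contDiff_neg
  have hρnc : HasCompactSupport (fun z => ρ (-z)) := hρc.comp_homeomorph (Homeomorph.neg _)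
  have hX1 : ContDiff ℝ 1 X := by
    rw [hXconv]
    exact_mod_cast hρnc.contDiff_convolution_right (n := 1) (ContinuousLinearMap.mul ℝ ℝ)
      hχ.continuous.locallyIntegrable (by exact_mod_cast hρn)
  have hXc : HasCompactSupport X := by
    rw [hXconv]
    exact hχc.convolution _ hρnc
  have hcap : 0 ≤ cap K := by
    unfold cap
    refine Real.sInf_nonneg ?_
    rintro _ ⟨f, _, rfl⟩
    exact En_nonneg f
  have hsum : ∀ i, En (G i) ≤ ∑ j, En (G j) := fun i =>
    Finset.single_le_sum (fun j _ => En_nonneg (G j)) (Finset.mem_univ i)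
  have hsum0 : 0 ≤ ∑ j, En (G j) := Finset.sum_nonneg fun j _ => En_nonneg _
  have hρE := En_nonneg ρ
  have hXE := En_nonneg X
  obtain ⟨M, hM⟩ : ∃ M : ℝ, M = 1 + En ρ + ∑ j, En (G j) + (3 + 2 * En X + 2 * cap K) := ⟨_, rfl⟩
  have hM0 : 0 < M := by
    rw [hM]
    linarith
  have hM1 : 1 + En ρ ≤ M := by
    rw [hM]
    linarith
  have hM2 : ∀ i, 1 + En (G i) ≤ M := by
    intro i
    rw [hM]
    linarith [hsum i]
  have hM3 : 3 + 2 * En X + 2 * cap K ≤ M := by
    rw [hM]
    linarith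
  refine ⟨M, hM0, fun κ θ ψ hκ hκ1 hθ hψ hψ01 hE => ?_⟩
  obtain ⟨v, hv, hv3, hvc, hlap, hdlap, hχv⟩ := hconv ψ hψ.1 hψ.2.1
  have hint : ∀ x : E n, Integrable (fun y => ψ y * ρ (x - y)) := fun x =>
    Continuous.integrable_of_hasCompactSupport
      (hψ.1.continuous.mul (refl_contDiff ρ hρ1 x).continuous)
      (HasCompactSupport.mul_right hψ.2.1)
  have hint' : ∀ x : E n, Integrable (fun y => ρ (x - y)) := fun x =>
    Continuous.integrable_of_hasCompactSupport (refl_contDiff ρ hρ1 x).continuous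
      (refl_supp ρ hρc x)
  refine ⟨v, hv3, fun x => ?_, fun x hx => ?_, fun x => ?_, fun x hx => ?_, ?_⟩
  · rw [hv x]
    refine ⟨integral_nonneg fun y => mul_nonneg (hψ01 y).1 (hρ0 _), ?_⟩
    calc ∫ y, ψ y * ρ (x - y) ≤ ∫ y, (1 + θ) * ρ (x - y) :=
          integral_mono (hint x) ((hint' x).const_mul _) fun y =>
            mul_le_mul_of_nonneg_right (hψ01 y).2 (hρ0 _)
      _ = 1 + θ := by rw [integral_const_mul, int_refl ρ x hρi, mul_one]
  · rw [hv x, ← int_refl ρ x hρi]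
    refine integral_mono (hint' x) (hint x) fun y => ?_
    show ρ (x - y) ≤ ψ y * ρ (x - y)
    by_cases h : ε ≤ ‖x - y‖
    · rw [hρs _ h, mul_zero]
    · have h1 : y ∈ K := hx (by
        rw [mem_closedBall, dist_comm, dist_eq_norm]
        exact (not_le.1 h).le)
      exact le_mul_of_one_le_left (hρ0 _) (hψ.2.2 y h1)
  · have h1 := one_sided hV K ψ ρ κ x hκ hψ hE hρ1 hρc (fun y _ => hρ0 _)
    rw [← hlap x] at h1
    have h2 : κ * (1 + En ρ) / 2 ≤ M * κ := aux _ _ _ hκ hM0 hM1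
    linarith
  · have hfar : ∀ y ∈ K, ε < ‖x - y‖ := fun y hy => by
      rw [← dist_eq_norm]
      exact hx.trans_le (infDist_le_dist_of_mem hy)
    constructor
    · have h1 := two_sided hV K ψ ρ κ x hκ hψ hE hρ1 hρc (fun y hy => hρs _ (hfar y hy).le)
      rw [← hlap x, abs_neg] at h1
      exact h1.trans (aux _ _ _ hκ hM0 hM1)
    · intro i
      have h0 : ∀ y ∈ K, G i (x - y) = 0 := by
        intro y hy
        rw [hG]
        show fderiv ℝ ρ (x - y) (e i) = 0
        have h2 : ρ =ᶠ[nhds (x - y)] fun _ => 0 := by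
          have h3 : {z : E n | ε < ‖z‖} ∈ nhds (x - y) :=
            (isOpen_lt continuous_const continuous_norm).mem_nhds (hfar y hy)
          filter_upwards [h3] with z hz
          exact hρs z (le_of_lt hz)
        rw [h2.fderiv_eq]
        simp
      have h1 := two_sided hV K ψ (G i) κ x hκ hψ hE (hG1 i) (hGc i) h0
      have h4 : bil ψ (fun y => G i (x - y)) = - fderiv ℝ (lap v) x (e i) := by
        rw [hdlap x i, hG]
      rw [h4, abs_neg] at h1
      exact h1.trans (aux _ _ _ hκ hM0 (hM2 i))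
  · rw [hχv χ hχ hχc, ← hX]
    have hXK : ∀ y ∈ K, X y = 1 := by
      intro y hy
      rw [hX]
      show ∫ x, χ x * ρ (x - y) = 1
      have h1 : ∀ x, χ x * ρ (x - y) = ρ (x - y) := by
        intro x
        by_cases h : ε ≤ ‖x - y‖
        · rw [hρs _ h, mul_zero]
        · rw [hχ1 x, one_mul]
          have h2 : infDist x K ≤ dist x y := infDist_le_dist_of_mem hy
          rw [dist_eq_norm] at h2
          linarith [not_le.1 h]
      simp_rw [h1]
      rw [integral_sub_right_eq_self ρ y, hρi]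
    have h1 := hV n K ψ (fun y => X y - ψ y) κ hκ hψ hE (hX1.sub hψ.1) (hXc.sub hψ.2.1)
      (fun y hy => by
        have h2 := hψ.2.2 y hy
        rw [hXK y hy]
        nlinarith)
    rw [bil_sub ψ X ψ hψ.1 hX1 hψ.1 hXc hψ.2.1, bil_self] at h1
    have h2 : cap K ≤ En ψ := by
      unfold cap
      refine csInf_le ⟨0, ?_⟩ ⟨ψ, hψ, rfl⟩
      rintro _ ⟨f, _, rfl⟩
      exact En_nonneg f
    have h3 := En_sub_le X ψ hX1 hψ.1 hXc hψ.2.1
    have h4 : En (fun y => X y - ψ y) ≤ 2 * En X + 2 * (cap K + 1) := by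
      have : κ ^ 2 ≤ 1 := by nlinarith
      linarith
    have h5 : κ * (1 + En (fun y => X y - ψ y)) / 2 ≤ M * κ :=
      aux _ _ _ hκ hM0 (by linarith)
    linarith

end Pool.Agent.N622.TI
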